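import Mathlib

/-!
Shared definitions for the gcd-subtraction recursion of problem MP_0950f1_nt:
`a(1) = N`, `a(n) = a(n-1) - gcd(a(n-1), P(n))`, `f(N) = min {n ≥ 1 : a(n) = 0}`.
-/

open Polynomial Filter

namespace Pool.Agent.H87.GcdRec

/-- The standing hypothesis on `P`: `P(n) ≥ 0` for all integers `n ≥ 1`, and `P(n) → +∞`. -/
def Admissible (P : ℤ[X]) : Prop :=
  (∀ n : ℕ, 1 ≤ n → 0 ≤ P.eval (n : ℤ)) ∧
    Tendsto (fun n : ℕ => P.eval (n : ℤ)) atTop atTop

/-- The recursion `a(1) = N`, `a(n) = a(n-1) - gcd(a(n-1), P(n))` for `n ≥ 2`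
(the value at the unused index `0` is set to `N`).  `Int.gcd m 0 = |m|`. -/
def a (P : ℤ[X]) (N : ℕ) : ℕ → ℤ
  | 0 => N
  | 1 => N
  | (n + 2) => a P N (n + 1) - (Int.gcd (a P N (n + 1)) (P.eval ((n + 2 : ℕ) : ℤ)) : ℤ)

/-- `f(N) = min {n ≥ 1 : a(n) = 0}`. -/
noncomputable def f (P : ℤ[X]) (N : ℕ) : ℕ := sInf {n : ℕ | 1 ≤ n ∧ a P N n = 0}

theorem a_one (P : ℤ[X]) (N : ℕ) : a P N 1 = N := rfl

theorem a_succ (P : ℤ[X]) (N : ℕ) {n : ℕ} (hn : 1 ≤ n) :
    a P N (n + 1) = a P N n - (Int.gcd (a P N n) (P.eval ((n + 1 : ℕ) : ℤ)) : ℤ) := by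
  obtain ⟨k, rfl⟩ : ∃ k, n = k + 1 := ⟨n - 1, by omega⟩
  rfl

/-- While positive, the sequence loses at least one and does not jump below zero. -/
theorem step_bounds (P : ℤ[X]) (N : ℕ) {n : ℕ} (hn : 1 ≤ n) (h : 0 < a P N n) :
    0 ≤ a P N (n + 1) ∧ a P N (n + 1) ≤ a P N n - 1 := by
  have h1 : (Int.gcd (a P N n) (P.eval ((n + 1 : ℕ) : ℤ)) : ℤ) ∣ a P N n := Int.gcd_dvd_left ..
  have h2 : (Int.gcd (a P N n) (P.eval ((n + 1 : ℕ) : ℤ)) : ℤ) ≤ a P N n := Int.le_of_dvd h h1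
  have h3 : 0 < Int.gcd (a P N n) (P.eval ((n + 1 : ℕ) : ℤ)) :=
    Int.gcd_pos_of_ne_zero_left _ h.ne'
  rw [a_succ P N hn]
  omega

/-- The sequence takes the value `0` at some index between `1` and `N + 1`. -/
theorem exists_zero (P : ℤ[X]) (N : ℕ) : ∃ n, 1 ≤ n ∧ n ≤ N + 1 ∧ a P N n = 0 := by
  by_contra hcon
  push Not at hcon
  have key : ∀ k : ℕ, k ≤ N → 0 < a P N (k + 1) ∧ a P N (k + 1) ≤ N - k := by
    intro k
    induction k with
    | zero =>
      intro _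
      have := hcon 1 le_rfl (by omega)
      rw [a_one] at this
      simp only [zero_add, a_one]
      constructor
      · omega
      · simp
    | succ k ih =>
      intro hk
      obtain ⟨h1, h2⟩ := ih (by omega)
      obtain ⟨h3, h4⟩ := step_bounds P N (by omega : 1 ≤ k + 1) h1
      have h5 := hcon (k + 1 + 1) (by omega) (by omega)
      constructor
      · omega
      · push_cast
        omega
  obtain ⟨h1, h2⟩ := key N le_rfl
  omega

theorem f_mem (P : ℤ[X]) (N : ℕ) : 1 ≤ f P N ∧ a P N (f P N) = 0 := by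
  obtain ⟨n, h1, _, h2⟩ := exists_zero P N
  exact Nat.sInf_mem (s := {n : ℕ | 1 ≤ n ∧ a P N n = 0}) ⟨n, h1, h2⟩

theorem f_le (P : ℤ[X]) (N : ℕ) : f P N ≤ N + 1 := by
  obtain ⟨n, h1, h2, h3⟩ := exists_zero P N
  exact (Nat.sInf_le (s := {n : ℕ | 1 ≤ n ∧ a P N n = 0}) ⟨h1, h3⟩).trans h2

/-- Before time `f(N)` all terms are positive. -/
theorem pos_of_lt_f (P : ℤ[X]) (N : ℕ) {n : ℕ} (h1 : 1 ≤ n) (h2 : n < f P N) :
    0 < a P N n := by
  induction n with
  | zero => omega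
  | succ n ih =>
    have hne : a P N (n + 1) ≠ 0 := fun h0 =>
      Nat.notMem_of_lt_sInf h2 (⟨h1, h0⟩ : n + 1 ∈ {n : ℕ | 1 ≤ n ∧ a P N n = 0})
    rcases Nat.eq_zero_or_pos n with rfl | hn
    · simp only [zero_add, a_one] at hne ⊢
      omega
    · obtain ⟨h3, _⟩ := step_bounds P N hn (ih hn (by omega))
      omega

/-- potential function -/
def U (q x : ℤ) : ℤ := (q - 1) * x + x % q

theorem U_step (q x v : ℤ) (hq : 2 ≤ q) (hx : 0 < x) (hv : q ∣ v) :
    U q (x - (Int.gcd x v : ℤ)) + q ≤ U q x := by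
  have hg1 : 0 < Int.gcd x v := Int.gcd_pos_of_ne_zero_left _ hx.ne'
  have hg : (1 : ℤ) ≤ (Int.gcd x v : ℤ) := by exact_mod_cast hg1
  set g : ℤ := (Int.gcd x v : ℤ) with hgdef
  have hq0 : (0 : ℤ) < q := by omega
  unfold U
  by_cases hdx : q ∣ x
  · have hdg : q ∣ g := Int.dvd_coe_gcd hdx hv
    have h1 : x % q = 0 := Int.emod_eq_zero_of_dvd hdx
    have h2 : (x - g) % q = 0 := Int.emod_eq_zero_of_dvd (dvd_sub hdx hdg)
    have h3 : q ≤ g := Int.le_of_dvd (by omega) hdg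
    rw [h1, h2]
    nlinarith
  · have h1 : 1 ≤ x % q := by
      have h0 : 0 ≤ x % q := Int.emod_nonneg _ hq0.ne'
      have hne : x % q ≠ 0 := fun h => hdx (Int.dvd_of_emod_eq_zero h)
      omega
    have h1' : x % q < q := Int.emod_lt_of_pos _ hq0
    rcases hg.eq_or_lt with hg' | hg'
    · have h2 : (x - g) % q = x % q - 1 := by
        rw [← hg']
        have : x - 1 = (x % q - 1) + q * (x / q) := by
          have := Int.emod_add_mul_ediv x q
          omega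
        rw [this, Int.add_mul_emod_self_left]
        exact Int.emod_eq_of_lt (by omega) (by omega)
      rw [h2, ← hg']
      nlinarith
    · have h2 : (x - g) % q < q := Int.emod_lt_of_pos _ hq0
      nlinarith

theorem U_pos (q x : ℤ) (hq : 2 ≤ q) (hx : 0 < x) : q ≤ U q x := by
  have hq0 : (0 : ℤ) < q := by omega
  have h0 : 0 ≤ x % q := Int.emod_nonneg _ hq0.ne'
  unfold U
  rcases (show (1 : ℤ) ≤ x by omega).eq_or_lt with h | h
  · rw [← h, Int.emod_eq_of_lt (by omega) (by omega)]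
    omega
  · nlinarith

theorem main_ineq (P : ℤ[X]) (q : ℕ) (hq : q.Prime)
    (hdiv : ∀ n : ℕ, 1 ≤ n → (q : ℤ) ∣ P.eval (n : ℤ)) (N : ℕ) :
    (q : ℤ) * f P N ≤ ((q : ℤ) - 1) * N + (N : ℤ) % q + q := by
  have hq2 : (2 : ℤ) ≤ q := by exact_mod_cast hq.two_le
  have hq0 : (0 : ℤ) < q := by omega
  have hN0 : 0 ≤ (N : ℤ) % q := Int.emod_nonneg _ hq0.ne'
  -- decay of the potential
  have key : ∀ k : ℕ, k + 1 < f P N → U q (a P N (k + 1)) + q * k ≤ U q N := by
    intro k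
    induction k with
    | zero => intro _; simp [a_one]
    | succ k ih =>
      intro hk
      have h1 := ih (by omega)
      have h2 := pos_of_lt_f P N (n := k + 1) (by omega) (by omega)
      have h3 := U_step q _ (P.eval ((k + 1 + 1 : ℕ) : ℤ)) hq2 h2 (hdiv _ (by omega))
      rw [← a_succ P N (by omega : 1 ≤ k + 1)] at h3
      push_cast at h1 ⊢
      linarith
  have hf1 := (f_mem P N).1
  rcases hf1.eq_or_lt with h | h
  · rw [← h]
    have : 0 ≤ ((q : ℤ) - 1) * N := mul_nonneg (by omega) (by positivity)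
    push_cast
    linarith
  · obtain ⟨k, hk⟩ : ∃ k, f P N = k + 2 := ⟨f P N - 2, by omega⟩
    have h1 := key k (by omega)
    have h2 := pos_of_lt_f P N (n := k + 1) (by omega) (by omega)
    have h3 := U_pos q _ hq2 h2
    have h4 : U q N = ((q : ℤ) - 1) * N + (N : ℤ) % q := rfl
    rw [h4] at h1
    rw [hk]
    push_cast
    linarith

end Pool.Agent.H87.GcdRec
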